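import Pool.Agent.helper95.T5.SpecE

/-! Row t5:CBR (MP_16912e_nt): reduction of the central set to blocks -/

set_option autoImplicit false

namespace Pool.Agent.T5

open Finset NumberField Pool.Agent.helper3.FT Pool.Agent.helper47.RA

theorem CBR_quot (κ s : ℝ) (hκ : 0 < κ) (hs : 0 < s) : 3 * s / (κ ^ 2 * s) = 3 / κ ^ 2 := by
  field_simp

theorem CBR (hDYB : DYB_stmt) (hCZ : CZ_stmt) : CBR_stmt := by
  intro κ hκ hκ1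
  have hκ2 : 0 < κ ^ 2 := by positivity
  have hκ21 : κ ^ 2 ≤ 1 := by nlinarith
  have hlog : 0 ≤ Real.log (3 / κ ^ 2) := by
    apply Real.log_nonneg
    rw [le_div_iff₀ hκ2]
    linarith
  refine ⟨(2 + 2 * Real.log (3 / κ ^ 2)) ^ 2, by nlinarith, ?_⟩
  intro N Y Y₂ hN hY hY₂ h1 h2 F hF B hB hblk
  have hsN : 0 < sN N Y Y₂ := by
    by_contra h
    push Not at h
    nlinarith
  have hsK : 0 < sK N Y Y₂ := by
    by_contra h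
    push Not at h
    nlinarith
  obtain ⟨I, hI1, hI2, hI3⟩ := hDYB (κ ^ 2 * sN N Y Y₂) (3 * sN N Y Y₂) h1 (by nlinarith)
  obtain ⟨J, hJ1, hJ2, hJ3⟩ := hDYB (κ ^ 2 * sK N Y Y₂) (3 * sK N Y Y₂) h2 (by nlinarith)
  rw [CBR_quot κ _ hκ hsN] at hI1
  rw [CBR_quot κ _ hκ hsK] at hJ1
  have hsub : F ⊆ (I ×ˢ J).biUnion (fun v => F.filter (fun t => v.1 < 2 * t.1.1 ∧ t.1.1 ≤ v.1 ∧ v.2 < 2 * t.1.2 ∧
      t.1.2 ≤ v.2)) := by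
    intro t ht
    obtain ⟨c1, c2, c3, c4, -, -, -, -, -⟩ := hCZ κ N Y Y₂ t hκ hκ1 hN hY hY₂ (hF t ht)
    obtain ⟨N₁, hN₁, hN₂, hN₃⟩ := hI3 t.1.1 c1 c2
    obtain ⟨K₁, hK₁, hK₂, hK₃⟩ := hJ3 t.1.2 c3 c4
    rw [Finset.mem_biUnion]
    refine ⟨(N₁, K₁), Finset.mem_product.2 ⟨hN₁, hK₁⟩, ?_⟩
    rw [Finset.mem_filter]
    exact ⟨ht, hN₂, hN₃, hK₂, hK₃⟩
  have hcard : (F.card : ℝ) ≤ ∑ v ∈ I ×ˢ J, ((F.filter (fun t => v.1 < 2 * t.1.1 ∧ t.1.1 ≤ v.1 ∧ v.2 < 2 * t.1.2 ∧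
      t.1.2 ≤ v.2)).card : ℝ) := by
    have h := (Finset.card_le_card hsub).trans Finset.card_biUnion_le
    exact_mod_cast h
  have hsum : ∑ v ∈ I ×ˢ J, ((F.filter (fun t => v.1 < 2 * t.1.1 ∧ t.1.1 ≤ v.1 ∧ v.2 < 2 * t.1.2 ∧
      t.1.2 ≤ v.2)).card : ℝ) ≤ ((I ×ˢ J).card : ℝ) * B := by
    rw [← nsmul_eq_mul]
    apply Finset.sum_le_card_nsmul
    intro v hv
    rw [Finset.mem_product] at hv
    obtain ⟨i1, i2, i3⟩ := hI2 v.1 hv.1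
    obtain ⟨j1, j2, j3⟩ := hJ2 v.2 hv.2
    apply hblk v.1 v.2 i1 j1 ⟨i2, by linarith, j2, by linarith⟩ _ (Finset.filter_subset _ _)
    intro t ht
    exact (Finset.mem_filter.1 ht).2
  refine hcard.trans (hsum.trans (mul_le_mul_of_nonneg_right ?_ hB))
  rw [Finset.card_product, Nat.cast_mul, sq]
  exact mul_le_mul hI1 hJ1 (Nat.cast_nonneg _) (by linarith)

end Pool.Agent.T5
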