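import Pool.Agent.helper95.T5.SpecE

/-! Row t5:DYB (MP_16912e_nt): dyadic blocks -/

set_option autoImplicit false

namespace Pool.Agent.T5

open Finset NumberField Pool.Agent.helper3.FT Pool.Agent.helper47.RA

theorem DYB : DYB_stmt := by
  intro A B hA hAB
  have hA0 : 0 < A := by linarith
  have hB0 : 0 < B := by linarith
  have h2 : (1 : ℝ) < 2 := by norm_num
  have hL : 0 ≤ Real.logb 2 A := Real.logb_nonneg h2 hA
  have hL2 : 0 ≤ Real.logb 2 (2 * B) := Real.logb_nonneg h2 (by linarith)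
  refine ⟨(Icc ⌈Real.logb 2 A⌉₊ ⌊Real.logb 2 (2 * B)⌋₊).image (fun j => 2 ^ j), ?_, ?_, ?_⟩
  · have h1 : (((Icc ⌈Real.logb 2 A⌉₊ ⌊Real.logb 2 (2 * B)⌋₊).image (fun j => 2 ^ j)).card : ℝ) ≤
        ((⌊Real.logb 2 (2 * B)⌋₊ + 1 - ⌈Real.logb 2 A⌉₊ : ℕ) : ℝ) := by
      have h := Finset.card_image_le (s := Icc ⌈Real.logb 2 A⌉₊ ⌊Real.logb 2 (2 * B)⌋₊) (f := fun j => 2 ^ j)
      rw [Nat.card_Icc] at h
      exact_mod_cast h
    have hl2 : 0 < Real.log 2 := Real.log_pos h2
    have hq : Real.logb 2 (2 * B) = 1 + Real.logb 2 A + Real.log (B / A) / Real.log 2 := by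
      unfold Real.logb
      rw [Real.log_mul (by norm_num) hB0.ne', Real.log_div hB0.ne' hA0.ne']
      field_simp
      ring
    have hBA : 0 ≤ Real.log (B / A) := Real.log_nonneg (by rw [le_div_iff₀ hA0]; linarith)
    have hd : Real.log (B / A) / Real.log 2 ≤ 2 * Real.log (B / A) := by
      rw [div_le_iff₀ hl2]
      have := Real.log_two_gt_d9
      nlinarith
    refine h1.trans ?_
    rcases le_or_gt ⌈Real.logb 2 A⌉₊ (⌊Real.logb 2 (2 * B)⌋₊ + 1) with hc | hc
    · rw [Nat.cast_sub hc]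
      push_cast
      have a1 := Nat.floor_le hL2
      have a2 := Nat.le_ceil (Real.logb 2 A)
      linarith
    · rw [Nat.sub_eq_zero_of_le hc.le]
      push_cast
      linarith
  · intro N₁ hN
    rw [Finset.mem_image] at hN
    obtain ⟨j, hj, rfl⟩ := hN
    rw [Finset.mem_Icc] at hj
    refine ⟨Nat.one_le_two_pow, ?_, ?_⟩
    · have h := Nat.ceil_le.1 hj.1
      rw [Real.logb_le_iff_le_rpow h2 hA0, Real.rpow_natCast] at h
      push_cast
      exact h
    · have h := (Nat.le_floor_iff hL2).1 hj.2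
      rw [Real.le_logb_iff_rpow_le h2 (by linarith), Real.rpow_natCast] at h
      push_cast
      exact h
  · intro n hAn hnB
    have hn1 : 1 ≤ n := by
      have : (1 : ℝ) ≤ n := hA.trans hAn
      exact_mod_cast this
    have hle : n ≤ 2 ^ Nat.clog 2 n := Nat.le_pow_clog (by norm_num) n
    have hlt : 2 ^ Nat.clog 2 n < 2 * n := by
      rcases Nat.lt_or_ge 1 n with h | h
      · have h3 := Nat.pow_pred_clog_lt_self (b := 2) (by norm_num) h
        have h4 := Nat.clog_pos (b := 2) (by norm_num) h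
        have h5 : 2 ^ Nat.clog 2 n = 2 * 2 ^ (Nat.clog 2 n).pred := by
          rw [← pow_succ']
          congr 1
          have : (Nat.clog 2 n).pred = Nat.clog 2 n - 1 := rfl
          omega
        omega
      · have : n = 1 := by omega
        subst this
        simp
    have hleR : (n : ℝ) ≤ 2 ^ Nat.clog 2 n := by exact_mod_cast hle
    have hltR : (2 : ℝ) ^ Nat.clog 2 n < 2 * n := by exact_mod_cast hlt
    refine ⟨2 ^ Nat.clog 2 n, ?_, hlt, hle⟩
    rw [Finset.mem_image]
    refine ⟨Nat.clog 2 n, ?_, rfl⟩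
    rw [Finset.mem_Icc]
    constructor
    · rw [Nat.ceil_le, Real.logb_le_iff_le_rpow h2 hA0, Real.rpow_natCast]
      linarith
    · rw [Nat.le_floor_iff hL2, Real.le_logb_iff_rpow_le h2 (by linarith), Real.rpow_natCast]
      linarith

end Pool.Agent.T5
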