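import Pool.Agent.helper95.T5.SpecE

/-! Row t5:BLU (MP_16912e_nt): upper bound for a block -/

set_option autoImplicit false

namespace Pool.Agent.T5

open Finset NumberField Pool.Agent.helper3.FT Pool.Agent.helper47.RA

theorem BLU_log (ε T x : ℝ) (hε : 0 < ε) (hx : 1 ≤ x) (hxT : x ≤ T) :
    1 + Real.log x ≤ (1 + 2 / ε) * T ^ (ε / 2) := by
  have hT : 1 ≤ T := hx.trans hxT
  have h1 : Real.log x ≤ Real.log T := Real.log_le_log (by linarith) hxT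
  have h2 : Real.log T ≤ T ^ (ε / 2) / (ε / 2) := Real.log_le_rpow_div (by linarith) (by positivity)
  have h3 : T ^ (ε / 2) / (ε / 2) = 2 / ε * T ^ (ε / 2) := by
    field_simp
  have h4 : (1 : ℝ) ≤ T ^ (ε / 2) := Real.one_le_rpow hT (by positivity)
  rw [h3] at h2
  linarith

theorem BLU (hFUP : FUP_stmt) (hWEY : WEY_stmt) (hNEAR : NEAR_stmt) : BLU_stmt := by
  intro ε hε
  obtain ⟨C₁, hC₁, hw⟩ := hWEY
  obtain ⟨C₂, hC₂, hn⟩ := hNEAR (ε / 2) (by positivity)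
  have hL1 : 1 ≤ 1 + 2 / ε := by
    have : 0 < 2 / ε := by positivity
    linarith
  have hsC : 1 ≤ √C₁ := by
    rw [show (1 : ℝ) = √1 by simp]
    exact Real.sqrt_le_sqrt hC₁
  refine ⟨4 * (√C₁ * (1 + 2 / ε)) * C₂, ?_, ?_⟩
  · have h1 : 1 ≤ √C₁ * (1 + 2 / ε) := one_le_mul_of_one_le_of_one_le hsC hL1
    have h2 : 1 ≤ (√C₁ * (1 + 2 / ε)) * C₂ := one_le_mul_of_one_le_of_one_le h1 hC₂
    linarith
  intro T N K M G V P e q₁ q₂ y H a W r s ρ m₀ g₀ z₀ r₁ r₂ c₀ hN hNT hK hKT hM hMT hG hGT hH hHT hV hP he hq₁ hq₂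
    hqT hy hyT ha hsq hS hW hR hHV
  have hnear := hn T N K M G H e q₁ q₂ y a W r s ρ hN hNT hK hKT hM hG hH hHT he hq₁ hq₂ hqT hy hyT ha hsq hS hW hR
  have hHR : (0 : ℝ) < H := by exact_mod_cast hH
  have hMR : (1 : ℝ) ≤ M := by exact_mod_cast hM
  have hGR : (1 : ℝ) ≤ G := by exact_mod_cast hG
  have hTR : (1 : ℝ) ≤ T := hMR.trans (by exact_mod_cast hMT)
  -- the exponential sums
  have hES : ∀ p ∈ W, ∀ h : ℕ, ‖ESg (m₀ p) (g₀ p) M G P (r₁ p) (r₂ p)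
      (h * (ρ p).1 / ((p.1 ^ 3 * p.2 * e : ℕ) : ℝ)) (h * (ρ p).2.1 / ((p.1 ^ 3 * p.2 * e : ℕ) : ℝ))
      (h * (ρ p).2.2 / ((p.1 ^ 3 * p.2 * e : ℕ) : ℝ)) 0 0‖ ≤
      (√C₁ * (1 + 2 / ε)) * (T : ℝ) ^ (ε / 2) * √((M : ℝ) * G) * √(nearG M G e ρ h p) := by
    intro p _ h
    have h1 := hw (m₀ p) (g₀ p) M G P (r₁ p) (r₂ p) (h * (ρ p).1 / ((p.1 ^ 3 * p.2 * e : ℕ) : ℝ))
      (h * (ρ p).2.1 / ((p.1 ^ 3 * p.2 * e : ℕ) : ℝ)) (h * (ρ p).2.2 / ((p.1 ^ 3 * p.2 * e : ℕ) : ℝ)) 0 0 hM hG hP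
    have h2 : ((nearPts M G (h * (ρ p).1 / ((p.1 ^ 3 * p.2 * e : ℕ) : ℝ))
      (h * (ρ p).2.1 / ((p.1 ^ 3 * p.2 * e : ℕ) : ℝ)) (h * (ρ p).2.2 / ((p.1 ^ 3 * p.2 * e : ℕ) : ℝ))).card : ℝ) =
        nearG M G e ρ h p := by
      unfold nearG
      push_cast
      rfl
    rw [h2] at h1
    have hng : 0 ≤ nearG M G e ρ h p := by
      rw [← h2]
      exact Nat.cast_nonneg _
    have hlM : 1 + Real.log M ≤ (1 + 2 / ε) * (T : ℝ) ^ (ε / 2) := BLU_log ε T M hε hMR (by exact_mod_cast hMT)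
    have hlG : 1 + Real.log G ≤ (1 + 2 / ε) * (T : ℝ) ^ (ε / 2) := BLU_log ε T G hε hGR (by exact_mod_cast hGT)
    have hlM0 : 0 ≤ 1 + Real.log M := by
      have := Real.log_nonneg hMR
      linarith
    have hlG0 : 0 ≤ 1 + Real.log G := by
      have := Real.log_nonneg hGR
      linarith
    have hTe : 0 ≤ (T : ℝ) ^ (ε / 2) := by positivity
    refine abs_le_of_sq_le_sq' ?_ (by positivity) |>.2
    rw [mul_pow, mul_pow, mul_pow, mul_pow, Real.sq_sqrt (show (0 : ℝ) ≤ (M : ℝ) * G by positivity),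
      Real.sq_sqrt hng, Real.sq_sqrt (show 0 ≤ C₁ by linarith)]
    refine h1.trans ?_
    have h3 : (1 + Real.log M) * (1 + Real.log G) ≤ ((1 + 2 / ε) * (T : ℝ) ^ (ε / 2)) * ((1 + 2 / ε) * (T : ℝ) ^ (ε / 2)) :=
      mul_le_mul hlM hlG hlG0 (by positivity)
    have h4 : 0 ≤ C₁ * ((M : ℝ) * G * nearG M G e ρ h p) := by positivity
    calc C₁ * (1 + Real.log M) * (1 + Real.log G) * M * G * nearG M G e ρ h p
        = ((1 + Real.log M) * (1 + Real.log G)) * (C₁ * ((M : ℝ) * G * nearG M G e ρ h p)) := by ring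
      _ ≤ (((1 + 2 / ε) * (T : ℝ) ^ (ε / 2)) * ((1 + 2 / ε) * (T : ℝ) ^ (ε / 2))) *
          (C₁ * ((M : ℝ) * G * nearG M G e ρ h p)) := mul_le_mul_of_nonneg_right h3 h4
      _ = _ := by ring
  -- one pair
  have hone : ∀ p ∈ W, ((fibG (m₀ p) (g₀ p) (z₀ p) M G V P (p.1 ^ 3 * p.2 * e) (r₁ p) (r₂ p)
      (ρ p).1 (ρ p).2.1 (ρ p).2.2 (c₀ p)).card : ℝ) ≤ 2 / H * (((M : ℝ) / P + 1) * ((G : ℝ) / P + 1)) +
        4 / H * ((√C₁ * (1 + 2 / ε)) * (T : ℝ) ^ (ε / 2) * √((M : ℝ) * G)) * ∑ h ∈ Icc 1 H, √(nearG M G e ρ h p) := by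
    intro p hp
    have hpp := hW hp
    unfold pairs at hpp
    rw [Finset.mem_filter, Finset.mem_product, Finset.mem_Icc, Finset.mem_Icc] at hpp
    obtain ⟨⟨⟨p1, p2⟩, p3, p4⟩, p5, p6, -, -⟩ := hpp
    have hq : 1 ≤ p.1 ^ 3 * p.2 * e := Nat.mul_pos (Nat.mul_pos (pow_pos p1 3) p3) he
    have hN8 : N ^ 3 ≤ 8 * p.1 ^ 3 := by
      calc N ^ 3 ≤ (2 * p.1) ^ 3 := Nat.pow_le_pow_left p5.le 3
        _ = 8 * p.1 ^ 3 := by ring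
    have hNK : N ^ 3 * K * e ≤ 16 * (p.1 ^ 3 * p.2 * e) := by
      calc N ^ 3 * K * e ≤ (8 * p.1 ^ 3) * (2 * p.2) * e :=
            Nat.mul_le_mul_right _ (Nat.mul_le_mul hN8 p6.le)
        _ = 16 * (p.1 ^ 3 * p.2 * e) := by ring
    have h4 : 4 * H * V ≤ p.1 ^ 3 * p.2 * e := by
      have : 16 * (4 * H * V) ≤ 16 * (p.1 ^ 3 * p.2 * e) := by
        calc 16 * (4 * H * V) = 64 * H * V := by ring
          _ ≤ N ^ 3 * K * e := hHV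
          _ ≤ _ := hNK
      omega
    have h5 := hFUP (m₀ p) (g₀ p) (z₀ p) M G V P (p.1 ^ 3 * p.2 * e) H (r₁ p) (r₂ p) (ρ p).1 (ρ p).2.1 (ρ p).2.2 (c₀ p)
      hV hP hq hH h4
    refine h5.trans ?_
    rw [mul_add]
    have h6 : ∑ h ∈ Ico 1 H, ‖ESg (m₀ p) (g₀ p) M G P (r₁ p) (r₂ p)
      (h * (ρ p).1 / ((p.1 ^ 3 * p.2 * e : ℕ) : ℝ)) (h * (ρ p).2.1 / ((p.1 ^ 3 * p.2 * e : ℕ) : ℝ))
      (h * (ρ p).2.2 / ((p.1 ^ 3 * p.2 * e : ℕ) : ℝ)) 0 0‖ ≤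
        ((√C₁ * (1 + 2 / ε)) * (T : ℝ) ^ (ε / 2) * √((M : ℝ) * G)) * ∑ h ∈ Icc 1 H, √(nearG M G e ρ h p) := by
      rw [Finset.mul_sum]
      refine (Finset.sum_le_sum fun h _ => hES p hp h).trans ?_
      apply Finset.sum_le_sum_of_subset_of_nonneg
      · intro h hh
        rw [Finset.mem_Ico] at hh
        rw [Finset.mem_Icc]
        omega
      · intro h _ _
        positivity
    have h7 : 2 / (H : ℝ) * (2 * ∑ h ∈ Ico 1 H, ‖ESg (m₀ p) (g₀ p) M G P (r₁ p) (r₂ p)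
      (h * (ρ p).1 / ((p.1 ^ 3 * p.2 * e : ℕ) : ℝ)) (h * (ρ p).2.1 / ((p.1 ^ 3 * p.2 * e : ℕ) : ℝ))
      (h * (ρ p).2.2 / ((p.1 ^ 3 * p.2 * e : ℕ) : ℝ)) 0 0‖) ≤
        2 / (H : ℝ) * (2 * (((√C₁ * (1 + 2 / ε)) * (T : ℝ) ^ (ε / 2) * √((M : ℝ) * G)) *
          ∑ h ∈ Icc 1 H, √(nearG M G e ρ h p))) := by
      apply mul_le_mul_of_nonneg_left _ (by positivity)
      linarith
    have h8 : 2 / (H : ℝ) * (2 * (((√C₁ * (1 + 2 / ε)) * (T : ℝ) ^ (ε / 2) * √((M : ℝ) * G)) *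
          ∑ h ∈ Icc 1 H, √(nearG M G e ρ h p))) =
        4 / H * ((√C₁ * (1 + 2 / ε)) * (T : ℝ) ^ (ε / 2) * √((M : ℝ) * G)) * ∑ h ∈ Icc 1 H, √(nearG M G e ρ h p) := by
      ring
    rw [h8] at h7
    linarith
  refine (Finset.sum_le_sum hone).trans ?_
  rw [Finset.sum_add_distrib, Finset.sum_const, nsmul_eq_mul, ← Finset.mul_sum]
  have hfac : 0 ≤ 4 / (H : ℝ) * ((√C₁ * (1 + 2 / ε)) * (T : ℝ) ^ (ε / 2) * √((M : ℝ) * G)) := by positivity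
  have h9 := mul_le_mul_of_nonneg_left hnear hfac
  have hTT : (T : ℝ) ^ (ε / 2) * (T : ℝ) ^ (ε / 2) = (T : ℝ) ^ ε := by
    rw [← Real.rpow_add (by linarith)]
    congr 1
    ring
  have h10 : 4 / (H : ℝ) * ((√C₁ * (1 + 2 / ε)) * (T : ℝ) ^ (ε / 2) * √((M : ℝ) * G)) *
      (C₂ * (T : ℝ) ^ (ε / 2) * nB N K H y q₁ q₂ e a) =
      4 * (√C₁ * (1 + 2 / ε)) * C₂ * (T : ℝ) ^ ε * (√((M : ℝ) * G) / H) * nB N K H y q₁ q₂ e a := by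
    rw [← hTT]
    ring
  rw [h10] at h9
  have h11 : (W.card : ℝ) * (2 / H * (((M : ℝ) / P + 1) * ((G : ℝ) / P + 1))) =
      2 / H * (((M : ℝ) / P + 1) * ((G : ℝ) / P + 1)) * (W.card : ℝ) := by ring
  rw [h11]
  linarith

end Pool.Agent.T5
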