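import Pool.Agent.helper95.T5.SpecE
import Pool.Agent.helper42.T5.FIB

/-! Row t5:FIB2 (MP_16912e_nt): the number of points of a fibre, from arcs -/

set_option autoImplicit false

namespace Pool.Agent.T5

open Finset NumberField Pool.Agent.helper3.FT Pool.Agent.helper47.RA

/-- an integer `w` modulo `q` in a window of integers is a point `w / q` modulo `1` in an arc -/
theorem FIB2_arc (w z₀ : ℤ) (V q : ℕ) (hq : 0 < q) :
    (∃ z ∈ Ico z₀ (z₀ + V), (q : ℤ) ∣ w - z) ↔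
      ∃ z : ℤ, (z₀ : ℝ) / q ≤ (w : ℝ) / q - z ∧ (w : ℝ) / q - z < (z₀ : ℝ) / q + (V : ℝ) / q := by
  have hqR : (0 : ℝ) < q := by exact_mod_cast hq
  have key : ∀ j : ℤ, ((z₀ : ℝ) / q ≤ (w : ℝ) / q - j ∧ (w : ℝ) / q - j < (z₀ : ℝ) / q + (V : ℝ) / q) ↔
      (z₀ ≤ w - q * j ∧ w - q * j < z₀ + V) := by
    intro j
    have e1 : (w : ℝ) / q - j = ((w - q * j : ℤ) : ℝ) / q := by
      push_cast
      field_simp
    have e2 : (z₀ : ℝ) / q + (V : ℝ) / q = ((z₀ + V : ℤ) : ℝ) / q := by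
      push_cast
      field_simp
    rw [e1, e2, div_le_div_iff_of_pos_right hqR, div_lt_div_iff_of_pos_right hqR, Int.cast_le, Int.cast_lt]
  constructor
  · rintro ⟨z, hz, j, hj⟩
    rw [Finset.mem_Ico] at hz
    refine ⟨j, (key j).2 ?_⟩
    have : w - q * j = z := by linarith
    rw [this]
    exact hz
  · rintro ⟨j, hj⟩
    have h := (key j).1 hj
    refine ⟨w - q * j, Finset.mem_Ico.2 h, j, by ring⟩

/-- row FIB2 -/
theorem FIB2 (hARC : ARC_stmt) : FIB2_stmt := by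
  classical
  intro η hη hη1
  obtain ⟨R, C, hR, hC, harc⟩ := hARC η hη hη1
  refine ⟨R, C + 4, hR, by linarith, ?_⟩
  intro m₀ g₀ z₀ M G V P q H r r' α β γ c₀ hP hPM hPG hV hVq hRq
  obtain ⟨A, hA⟩ : ∃ A, A = (Ico m₀ (m₀ + M)).filter (fun m => (P : ℤ) ∣ m - r) := ⟨_, rfl⟩
  obtain ⟨B, hB⟩ : ∃ B, B = (Ico g₀ (g₀ + G)).filter (fun g => (P : ℤ) ∣ g - r') := ⟨_, rfl⟩
  have hq0 : 0 < q := by omega
  have hq : (0 : ℝ) < q := by exact_mod_cast hq0
  have hV0 : (0 : ℝ) < V := by exact_mod_cast hV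
  have hVqR : 4 * (V : ℝ) ≤ q := by exact_mod_cast hVq
  have hl : (0 : ℝ) < (V : ℝ) / q := by positivity
  have hl4 : (V : ℝ) / q ≤ 1 / 4 := by
    rw [div_le_iff₀ hq]
    linarith
  have hRl : R ≤ H * ((V : ℝ) / q) := by
    rw [mul_div_assoc', le_div_iff₀ hq]
    exact hRq
  have h0 := harc (A ×ˢ B) (fun i : ℤ × ℤ => ((α * i.1 ^ 2 + β * i.1 * i.2 + γ * i.2 ^ 2 + c₀ : ℤ) : ℝ) / q)
    ((z₀ : ℝ) / q) ((V : ℝ) / q) H hl hl4 hRl
  -- the fibre
  have hcard : (fibG m₀ g₀ z₀ M G V P q r r' α β γ c₀).card = ((A ×ˢ B).filter (fun i =>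
      ∃ z ∈ Ico z₀ (z₀ + V), (q : ℤ) ∣ (α * i.1 ^ 2 + β * i.1 * i.2 + γ * i.2 ^ 2 + c₀) - z)).card := by
    refine Finset.card_bij (fun t _ => (t.1, t.2.1)) ?_ ?_ ?_
    · intro t ht
      unfold fibG at ht
      rw [← hA, ← hB, Finset.mem_filter, Finset.mem_product, Finset.mem_product] at ht
      rw [Finset.mem_filter, Finset.mem_product]
      refine ⟨⟨ht.1.1, ht.1.2.1⟩, t.2.2, ht.1.2.2, ?_⟩
      rw [← neg_sub, dvd_neg]
      exact ht.2
    · intro t ht t' ht' h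
      unfold fibG at ht ht'
      rw [← hA, ← hB, Finset.mem_filter, Finset.mem_product, Finset.mem_product] at ht ht'
      obtain ⟨⟨-, -, hz⟩, hd⟩ := ht
      obtain ⟨⟨-, -, hz'⟩, hd'⟩ := ht'
      have e1 : t.1 = t'.1 := (Prod.mk.inj h).1
      have e2 : t.2.1 = t'.2.1 := (Prod.mk.inj h).2
      have e3 : t.2.2 = t'.2.2 := by
        rw [← e1, ← e2] at hd'
        have hsub := dvd_sub hd hd'
        rw [sub_sub_sub_cancel_right] at hsub
        rw [Finset.mem_Ico] at hz hz'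
        have hlt : |t.2.2 - t'.2.2| < q := by
          have : 4 * (V : ℤ) ≤ q := by exact_mod_cast hVq
          rw [abs_lt]
          constructor <;> linarith [hz.1, hz.2, hz'.1, hz'.2]
        have := Int.eq_zero_of_abs_lt_dvd hsub hlt
        linarith
      exact Prod.ext e1 (Prod.ext e2 e3)
    · intro i hi
      rw [Finset.mem_filter, Finset.mem_product] at hi
      obtain ⟨⟨hi1, hi2⟩, z, hz, hd⟩ := hi
      refine ⟨(i.1, i.2, z), ?_, rfl⟩
      unfold fibG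
      rw [← hA, ← hB, Finset.mem_filter, Finset.mem_product, Finset.mem_product]
      refine ⟨⟨hi1, hi2, hz⟩, ?_⟩
      rw [← neg_sub, dvd_neg]
      exact hd
  have hcard' : ((fibG m₀ g₀ z₀ M G V P q r r' α β γ c₀).card : ℝ) = (((A ×ˢ B).filter (fun i : ℤ × ℤ =>
      ∃ z : ℤ, (z₀ : ℝ) / q ≤ ((α * i.1 ^ 2 + β * i.1 * i.2 + γ * i.2 ^ 2 + c₀ : ℤ) : ℝ) / q - z ∧
        ((α * i.1 ^ 2 + β * i.1 * i.2 + γ * i.2 ^ 2 + c₀ : ℤ) : ℝ) / q - z < (z₀ : ℝ) / q + (V : ℝ) / q)).card : ℝ) := by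
    rw [hcard]
    congr 2
    apply Finset.filter_congr
    intro i _
    exact FIB2_arc _ _ _ _ hq0
  -- the exponential sums
  have hES : ∀ h : ℕ, ‖∑ i ∈ A ×ˢ B, e (h * (((α * i.1 ^ 2 + β * i.1 * i.2 + γ * i.2 ^ 2 + c₀ : ℤ) : ℝ) / q))‖ =
      ‖ESg m₀ g₀ M G P r r' (h * α / q) (h * β / q) (h * γ / q) 0 0‖ := by
    intro h
    have : ∑ i ∈ A ×ˢ B, e (h * (((α * i.1 ^ 2 + β * i.1 * i.2 + γ * i.2 ^ 2 + c₀ : ℤ) : ℝ) / q)) =
        e (h * c₀ / q) * ESg m₀ g₀ M G P r r' (h * α / q) (h * β / q) (h * γ / q) 0 0 := by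
      unfold ESg
      rw [← hA, ← hB, Finset.sum_product, Finset.mul_sum]
      refine Finset.sum_congr rfl fun m _ => ?_
      rw [Finset.mul_sum]
      refine Finset.sum_congr rfl fun g _ => ?_
      rw [← FIB_e_add]
      congr 1
      push_cast
      ring
    rw [this, norm_mul, FIB_e_norm, one_mul]
  rw [← Finset.mul_sum] at h0
  simp only [hES] at h0
  have h0' : |((fibG m₀ g₀ z₀ M G V P q r r' α β γ c₀).card : ℝ) - ((A ×ˢ B).card : ℝ) * ((V : ℝ) / q)| ≤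
      η * (((A ×ˢ B).card : ℝ) * ((V : ℝ) / q)) + C * (((V : ℝ) / q) * ∑ h ∈ Icc 1 (2 * H),
        ‖ESg m₀ g₀ M G P r r' (h * α / q) (h * β / q) (h * γ / q) 0 0‖) := by
    rw [hcard']
    exact h0
  -- numbers
  have hAc := FIB_cnt m₀ r M P hP
  have hBc := FIB_cnt g₀ r' G P hP
  rw [← hA] at hAc
  rw [← hB] at hBc
  rw [Finset.card_product, Nat.cast_mul] at h0'
  have hS0 : 0 ≤ ∑ h ∈ Icc 1 (2 * H), ‖ESg m₀ g₀ M G P r r' (h * α / q) (h * β / q) (h * γ / q) 0 0‖ :=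
    Finset.sum_nonneg fun _ _ => norm_nonneg _
  have hP0 : (0 : ℝ) < P := by exact_mod_cast hP
  have hx : (1 : ℝ) ≤ (M : ℝ) / P := by
    rw [le_div_iff₀ hP0, one_mul]
    exact_mod_cast hPM
  have hy : (1 : ℝ) ≤ (G : ℝ) / P := by
    rw [le_div_iff₀ hP0, one_mul]
    exact_mod_cast hPG
  have ha0 : (0 : ℝ) ≤ (A.card : ℝ) := Nat.cast_nonneg _
  have hb0 : (0 : ℝ) ≤ (B.card : ℝ) := Nat.cast_nonneg _
  rw [mul_div_assoc, mul_div_assoc]
  generalize ((fibG m₀ g₀ z₀ M G V P q r r' α β γ c₀).card : ℝ) = F at *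
  generalize (A.card : ℝ) = a at *
  generalize (B.card : ℝ) = b at *
  generalize ∑ h ∈ Icc 1 (2 * H), ‖ESg m₀ g₀ M G P r r' (h * α / q) (h * β / q) (h * γ / q) 0 0‖ = S at *
  generalize (M : ℝ) / P = x at *
  generalize (G : ℝ) / P = y at *
  generalize (V : ℝ) / q = l at *
  rw [abs_le] at hAc hBc
  have hab1 : a * b ≤ x * y + 2 * (x + y) := by nlinarith
  have hab2 : x * y - 2 * (x + y) ≤ a * b := by
    have h1 : (x - 1) * (y - 1) ≤ a * b := mul_le_mul (by linarith) (by linarith) (by linarith) ha0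
    nlinarith
  have hd : |a * b * l - x * y * l| ≤ 2 * (x + y) * l := by
    rw [← sub_mul, abs_mul, abs_of_pos hl]
    apply mul_le_mul_of_nonneg_right _ hl.le
    rw [abs_le]
    constructor <;> linarith
  have h5 : |F - x * y * l| ≤ |F - a * b * l| + |a * b * l - x * y * l| := by
    have := abs_add_le (F - a * b * l) (a * b * l - x * y * l)
    rwa [sub_add_sub_cancel] at this
  have h6 : η * (a * b * l) ≤ (η * (x * y) + 2 * (x + y)) * l := by
    have h7 : η * (a * b) ≤ η * (x * y) + 2 * (x + y) := by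
      have h8 : η * (a * b) ≤ η * (x * y + 2 * (x + y)) := mul_le_mul_of_nonneg_left hab1 hη.le
      have h9 : η * (2 * (x + y)) ≤ 1 * (2 * (x + y)) := mul_le_mul_of_nonneg_right hη1 (by linarith)
      nlinarith
    calc η * (a * b * l) = η * (a * b) * l := by ring
      _ ≤ _ := mul_le_mul_of_nonneg_right h7 hl.le
  have h10 : 0 ≤ l * S := mul_nonneg hl.le hS0
  have h11 : 0 ≤ C * ((x + y) * l) := mul_nonneg (by linarith) (mul_nonneg (by linarith) hl.le)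
  have h12 : (C + 4) * l * S = C * (l * S) + 4 * (l * S) := by ring
  rw [h12]
  have h13 : (η * (x * y) + (C + 4) * (x + y)) * l = (η * (x * y) + 2 * (x + y)) * l + 2 * (x + y) * l +
      C * ((x + y) * l) := by ring
  rw [h13]
  linarith

end Pool.Agent.T5
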