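import Pool.Agent.helper26.T5.SpecA

set_option autoImplicit false

namespace Pool.Agent.helper26.T5

open MeasureTheory

theorem LPR_im (z z' : ℂ) : ((starRingEnd ℂ) z * z').im = ‖z‖ * ‖z'‖ * Real.sin (z'.arg - z.arg) := by
  have h1 := Complex.norm_mul_cos_arg z
  have h2 := Complex.norm_mul_sin_arg z
  have h3 := Complex.norm_mul_cos_arg z'
  have h4 := Complex.norm_mul_sin_arg z'
  rw [Complex.mul_im, Complex.conj_re, Complex.conj_im, Real.sin_sub, ← h1, ← h2, ← h3, ← h4]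
  rw [h1, h2, h3, h4]
  rw [← h1, ← h2, ← h3, ← h4]
  ring

theorem lpr : LPR := by
  intro S R V hV hS hp
  by_cases hR : S = ∅
  · subst hR
    simp only [Finset.card_empty, Nat.cast_zero]
    positivity
  obtain ⟨z0, hz0⟩ := Finset.nonempty_iff_ne_empty.2 hR
  have hR0 : 0 < R := by
    have h1 := hS z0 hz0
    have h2 : 0 < ‖z0‖ := by
      rw [norm_pos_iff]
      intro h
      rw [h] at h1
      simp at h1
    linarith [h1.1]
  set c : ℝ := R ^ 2 / V with hc
  have hcpos : 0 < c := by positivity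
  have harg : ∀ z ∈ S, 0 ≤ z.arg ∧ z.arg ≤ Real.pi := by
    intro z hz
    exact ⟨Complex.arg_nonneg_iff.2 (hS z hz).2.le, Complex.arg_le_pi z⟩
  have hinj : Set.InjOn (fun z : ℂ => ⌊z.arg * c⌋₊) (S : Set ℂ) := by
    intro z hz z' hz' hzz
    by_contra hne
    have hz1 : z ∈ S := hz
    have hz2 : z' ∈ S := hz'
    have h1 := hp z hz1 z' hz2 hne
    rw [LPR_im, abs_mul, abs_mul, abs_norm, abs_norm] at h1
    have h2 : |Real.sin (z'.arg - z.arg)| ≤ |z'.arg - z.arg| := Real.abs_sin_le_abs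
    have h3 : ‖z‖ * ‖z'‖ ≤ R * R :=
      mul_le_mul (hS z hz1).1 (hS z' hz2).1 (norm_nonneg _) hR0.le
    have h4 : V ≤ R * R * |z'.arg - z.arg| :=
      h1.trans (mul_le_mul h3 h2 (abs_nonneg _) (by positivity))
    have h5 : (1 : ℝ) ≤ c * |z'.arg - z.arg| := by
      rw [hc, div_mul_eq_mul_div, le_div_iff₀ hV]
      nlinarith
    have ha := Nat.floor_le (mul_nonneg (harg z hz1).1 hcpos.le)
    have hb := Nat.floor_le (mul_nonneg (harg z' hz2).1 hcpos.le)
    have ha' := Nat.lt_floor_add_one (z.arg * c)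
    have hb' := Nat.lt_floor_add_one (z'.arg * c)
    have hzz' : ⌊z.arg * c⌋₊ = ⌊z'.arg * c⌋₊ := hzz
    rw [hzz'] at ha ha'
    have h6 : |z'.arg * c - z.arg * c| < 1 := by
      rw [abs_lt]
      constructor <;> linarith
    rw [← sub_mul, abs_mul, abs_of_pos hcpos, mul_comm] at h6
    linarith
  have hmap : Set.MapsTo (fun z : ℂ => ⌊z.arg * c⌋₊) (S : Set ℂ)
      (Finset.range (⌊Real.pi * c⌋₊ + 1) : Set ℕ) := by
    intro z hz
    rw [Finset.coe_range, Set.mem_Iio]
    refine Nat.lt_succ_of_le (Nat.floor_le_floor ?_)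
    exact mul_le_mul_of_nonneg_right (harg z hz).2 hcpos.le
  have hcard := Finset.card_le_card_of_injOn _ hmap hinj
  rw [Finset.card_range] at hcard
  have h7 : ((S.card : ℕ) : ℝ) ≤ ⌊Real.pi * c⌋₊ + 1 := by exact_mod_cast hcard
  have h8 := Nat.floor_le (mul_nonneg Real.pi_pos.le hcpos.le)
  have h9 : Real.pi * R ^ 2 / V = Real.pi * c := by rw [hc]; ring
  rw [h9]
  linarith

end Pool.Agent.helper26.T5
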